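import Pool.Agent.Helper20.RL.St1

set_option autoImplicit false

open MeasureTheory Set Filter Topology
open scoped ENNReal RealInnerProductSpace

namespace Pool.Agent.Helper79.RL

open Pool.Agent.Helper68.LM (Pl BB Bd Av HL ft fm DQ)
open Pool.Agent.Helper20.RG Pool.Agent.Helper20.RL

theorem hLER (hLGR : StLGR) (hLGE : StLGE) (hLFM : StLFM) : StLER := by
  intro F s θ θ' V Z A B a p q hF hV hθ hθ' hZV hZ
  obtain ⟨g1, g2, g3, -, g5⟩ := hLGR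
  set W : ℤ → Set Pl := fun β => {y | ∃ z ∈ Z, B z = β ∧ y ∈ RQ s a β z} with hW
  have hWcl : ∀ β, ∀ y ∈ W β, RQ s a β y ⊆ W β := by
    rintro β y ⟨z, hz, hB, hy⟩ y' hy'
    refine ⟨z, hz, hB, ?_⟩
    rw [← g2 s a β z y hy]
    exact hy'
  have hWV : ∀ β, ∀ y ∈ W β, y ∈ V ∧ B y = β := by
    rintro β y ⟨z, hz, hB, hy⟩
    have h1 := (hZ z hz).1
    have h2 : y ∈ RQ s (A z) (B z) z := by
      rw [hB]
      exact g3 s a β (A z) β z h1 le_rfl hy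
    have h3 := hV.inv z (hZV hz) y h2
    exact ⟨h3.1, h3.2.2.trans hB⟩
  have hWm : ∀ β, MeasurableSet (W β) := fun β => g5 s a β (W β) (hWcl β)
  have hWr : ∀ β, volume (W β) ≤ ENNReal.ofReal (1 / θ') * volume (F ∩ W β) := by
    intro β
    have hFml : Fml F s θ' (W β) (fun _ => a) (fun _ => β) := by
      refine ⟨fun z hz z' hz' => ⟨hWcl β z hz hz', rfl, rfl⟩, ?_⟩
      rintro y ⟨z, hz, hB, hy⟩
      have h1 := (hZ z hz).2
      rw [hB] at h1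
      unfold Rich at h1 ⊢
      rw [g2 s a β z y hy]
      exact h1
    exact (hLFM.2 F s θ' (W β) (fun _ => a) (fun _ => β) hF hFml hθ').2.2.2
  have hsub : {x : Pl | ∃ z ∈ Z, |x 0 - z 0| ≤ p * (2 : ℝ) ^ a ∧ |pr s x - pr s z| ≤ q * (2 : ℝ) ^ (B z)} ⊆
      ⋃ β : ℤ, {x : Pl | ∃ y ∈ W β, |x 0 - y 0| ≤ p * (2 : ℝ) ^ a ∧ |pr s x - pr s y| ≤ q * (2 : ℝ) ^ β} := by
    rintro x ⟨z, hz, h1, h2⟩
    rw [mem_iUnion]
    exact ⟨B z, z, ⟨z, hz, rfl, (g1 s a (B z) z).2.2⟩, h1, h2⟩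
  have hdisj : Pairwise (Function.onFun Disjoint fun β : ℤ => F ∩ W β) := by
    intro β β' hne
    refine Set.disjoint_left.2 fun y hy hy' => hne ?_
    rw [← (hWV β y hy.2).2, (hWV β' y hy'.2).2]
  calc volume {x : Pl | ∃ z ∈ Z, |x 0 - z 0| ≤ p * (2 : ℝ) ^ a ∧ |pr s x - pr s z| ≤ q * (2 : ℝ) ^ (B z)}
      ≤ volume (⋃ β : ℤ, {x : Pl | ∃ y ∈ W β, |x 0 - y 0| ≤ p * (2 : ℝ) ^ a ∧
          |pr s x - pr s y| ≤ q * (2 : ℝ) ^ β}) := measure_mono hsub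
    _ ≤ ∑' β : ℤ, volume {x : Pl | ∃ y ∈ W β, |x 0 - y 0| ≤ p * (2 : ℝ) ^ a ∧
          |pr s x - pr s y| ≤ q * (2 : ℝ) ^ β} := measure_iUnion_le _
    _ ≤ ∑' β : ℤ, ENNReal.ofReal ((2 * p + 1) * (2 * q + 1) / θ') * volume (F ∩ W β) := by
        refine ENNReal.tsum_le_tsum fun β => ?_
        refine (hLGE s a β p q (W β) (hWcl β)).trans ?_
        refine (mul_le_mul_right (hWr β) _).trans ?_
        rw [← mul_assoc, ← ENNReal.ofReal_mul (by positivity), mul_one_div]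
    _ = ENNReal.ofReal ((2 * p + 1) * (2 * q + 1) / θ') * ∑' β : ℤ, volume (F ∩ W β) := ENNReal.tsum_mul_left
    _ = ENNReal.ofReal ((2 * p + 1) * (2 * q + 1) / θ') * volume (⋃ β : ℤ, F ∩ W β) := by
        rw [measure_iUnion hdisj fun β => hF.inter (hWm β)]
    _ ≤ ENNReal.ofReal ((2 * p + 1) * (2 * q + 1) / θ') * volume (F ∩ V) := by
        refine mul_le_mul_right (measure_mono ?_) _
        rw [← inter_iUnion]
        refine inter_subset_inter_right F ?_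
        exact iUnion_subset fun β y hy => (hWV β y hy).1

end Pool.Agent.Helper79.RL
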