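import Pool.Agent.Helper20.RL.St2

set_option autoImplicit false

open MeasureTheory Set Filter Topology
open scoped ENNReal RealInnerProductSpace

namespace Pool.Agent.Helper79.RL

open Pool.Agent.Helper68.LM (Pl BB Bd Av HL ft fm DQ)
open Pool.Agent.Helper20.RG Pool.Agent.Helper20.RL

/-- strips -/
private def St0 (Z : Set Pl) (Bf : Pl → ℤ) (s r : ℝ) : Set Pl :=
  {y | ∃ z ∈ Z, |y 0 - z 0| < r ∧ |pr s y - pr s z| < (2 : ℝ) ^ (Bf z)}

private theorem st0_open (Z : Set Pl) (Bf : Pl → ℤ) (s r : ℝ) : IsOpen (St0 Z Bf s r) := by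
  have h : St0 Z Bf s r = ⋃ z ∈ Z, {y : Pl | |y 0 - z 0| < r ∧ |pr s y - pr s z| < (2 : ℝ) ^ (Bf z)} := by
    ext y
    simp only [St0, mem_ofPred_eq, mem_iUnion, exists_prop]
  rw [h]
  refine isOpen_iUnion fun z => isOpen_iUnion fun _ => ?_
  have c0 : Continuous fun y : Pl => y 0 := by fun_prop
  have c1 : Continuous fun y : Pl => pr s y := by
    unfold pr
    fun_prop
  exact (isOpen_lt (c0.sub continuous_const).abs continuous_const).inter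
    (isOpen_lt (c1.sub continuous_const).abs continuous_const)

private theorem om_lo (u c l : ℕ) (hu : 2 ≤ u) : 2 ^ c * (5 * u) ≤ om u c l := by
  unfold om
  refine Nat.mul_le_mul_left _ ?_
  nlinarith

private theorem om_hi (u b i : ℕ) (hb : 1 ≤ b) : om u (b - 1) (16 * u - i) ≤ om u b 0 := by
  obtain ⟨c, rfl⟩ : ∃ c, b = c + 1 := ⟨b - 1, by omega⟩
  unfold om
  have h0 : 2 ^ (c + 1) * (1024 * u ^ 2 + 64 * u * 0) = 2 ^ c * (2 * (1024 * u ^ 2 + 64 * u * 0)) := by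
    rw [pow_succ 2 c, mul_assoc]
  rw [Nat.add_sub_cancel, h0]
  refine Nat.mul_le_mul_left _ ?_
  have h1 : 16 * u - i ≤ 16 * u := Nat.sub_le _ _
  have h2 : 64 * u * (16 * u - i) ≤ 64 * u * (16 * u) := Nat.mul_le_mul_left _ h1
  nlinarith

theorem hLCB (hPT : StPT) (hLGR : StLGR) (_hLFM : StLFM) (hLER : StLER) (hLLD : StLLD) (hLWR : StLWR) : StLCB := by
  obtain ⟨p1, -⟩ := hPT
  obtain ⟨C, hC1, hC⟩ := hLLD
  obtain ⟨C₂, hC₂1, hC₂⟩ := hLWR
  refine ⟨max (1024 * C₂) C, le_max_of_le_right hC1, ?_⟩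
  set C₃ : ℝ := max (1024 * C₂) C with hC₃
  have hC3a : 1024 * C₂ ≤ C₃ := le_max_left _ _
  have hC3b : C ≤ C₃ := le_max_right _ _
  have hC31 : 1 ≤ C₃ := hC1.trans hC3b
  intro u b A σ s F D θ m V Af Bf hu hb hA hSlo hBM hCtl hD hDθ hθ1 hV hm1 hm2 hm3
  have hθ : 0 < θ := by linarith
  have hm : 0 < m := by linarith
  set ν : ℝ := ns u b A σ with hν
  have hν1 : 1 ≤ ν := by
    rw [hν]
    unfold ns
    have h1 : (0 : ℝ) ≤ (2 : ℝ) ^ u * (A * ((2 : ℝ) ^ (b + 1) * u) ^ (-(1 / σ))) := by positivity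
    linarith
  set D₀ : ℝ := C₃ * ν * D / θ ^ 2 with hD₀
  have hD₀p : 0 < D₀ := by
    rw [hD₀]
    have : 0 < C₃ := by linarith
    positivity
  set Z : ℕ → Set Pl := fun j => Ty F (s j) θ (V j) (Af j) (Bf j) with hZ
  -- basic facts on Z
  have hZV : ∀ j, Z j ⊆ V j := fun j z hz => hz.2.1
  have hZr : ∀ j, ∀ z ∈ Z j, ∀ a ≤ Af j z, Rich F (s j) a (Bf j z) (θ / 2) z := fun j z hz => hz.2.2
  have hZB : ∀ j < 2 ^ u, ∀ z ∈ Z j, Bf j z ≤ 0 := by
    intro j hj z hz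
    by_contra hB
    push Not at hB
    obtain ⟨B, hBe⟩ : ∃ B : ℕ, (B : ℤ) = Bf j z := ⟨(Bf j z).toNat, Int.toNat_of_nonneg (by omega)⟩
    have h1 := hZr j z hz (Bf j z) ((hV j hj).2 z (hZV j hz)).2
    unfold Rich at h1
    rw [← hBe] at h1
    have h2 : RQ (s j) (B : ℤ) (B : ℤ) z ⊆ Sq z ((2 : ℝ) ^ (B + 1)) := by
      intro y hy
      obtain ⟨e1, -, e3⟩ := hLGR.2.2.2.1 (s j) B B z y (hSlo.1 j hj) hy
      rw [zpow_natCast] at e1 e3
      have e4 : (2 : ℝ) ^ (B + 1) = 2 ^ B + 2 ^ B := by rw [pow_succ]; ring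
      have e5 : (0 : ℝ) < 2 ^ B := by positivity
      refine ⟨?_, ?_⟩
      · rw [e4]; linarith
      · rw [e4]; exact e3.le
    have h3 := h1.trans ((measure_mono (inter_subset_inter_right F h2)).trans (hCtl z (B + 1)))
    have h4 : (0 : ℝ) ≤ D * 4 ^ (B + 1) := by positivity
    rw [ENNReal.ofReal_le_ofReal_iff h4] at h3
    have e6 : (2 : ℝ) ^ ((B : ℤ) + (B : ℤ)) = 4 ^ B := by
      rw [zpow_add₀ (by norm_num), zpow_natCast, ← mul_pow]
      norm_num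
    rw [e6, pow_succ] at h3
    have e7 : (0 : ℝ) < 4 ^ B := by positivity
    have h5 : θ / 2 ≤ D * 4 := by
      by_contra h6
      push Not at h6
      nlinarith
    linarith
  -- the strips
  set a : ℕ → ℕ := fun i => om u (b - 1) (16 * u - i) with ha
  have haLo : ∀ i, 2 ^ (b + 1) * u + u ≤ a i := by
    intro i
    refine le_trans ?_ (om_lo u (b - 1) (16 * u - i) hu)
    obtain ⟨c, rfl⟩ : ∃ c, b = c + 1 := ⟨b - 1, by omega⟩
    rw [Nat.add_sub_cancel]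
    have h1 : 1 ≤ 2 ^ c := Nat.one_le_two_pow
    have h2 : 2 ^ (c + 1 + 1) = 4 * 2 ^ c := by rw [pow_succ, pow_succ]; ring
    rw [h2]
    nlinarith
  have haHi : ∀ i, a i ≤ om u b 0 := fun i => om_hi u b i hb
  set Et : ℕ → ℕ → Set Pl := fun i j => St0 (Z j) (Bf j) (s j) ((2 : ℝ) ^ (a i) / 2) with hEt
  set Er : ℕ → ℕ → Set Pl := fun i j => St0 (Z j) (Bf j) (s j) ((2 : ℝ) ^ (a i)) with hEr
  have hZEt : ∀ i j, Z j ⊆ Et i j := by
    intro i j z hz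
    refine ⟨z, hz, ?_, ?_⟩
    · rw [sub_self, abs_zero]; positivity
    · rw [sub_self, abs_zero]; positivity
  have hZA : ∀ j < 2 ^ u, ∀ z ∈ Z j, ∀ i, ((a i : ℕ) : ℤ) ≤ Af j z := by
    intro j hj z hz i
    have h1 := ((hV j hj).2 z (hZV j hz)).1
    have h2 : ((a i : ℕ) : ℤ) ≤ (om u b 0 : ℤ) := by exact_mod_cast haHi i
    exact h2.trans h1
  -- (4)
  have h4 : ∀ i, ∀ j < 2 ^ u, volume (Er i j) ≤ ENNReal.ofReal (18 / θ) * volume (F ∩ V j) := by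
    intro i j hj
    have h1 := hLER F (s j) θ (θ / 2) (V j) (Z j) (Af j) (Bf j) (a i : ℤ) 1 1 hBM.1 (hV j hj).1 hθ
      (by positivity) (hZV j) (fun z hz => ⟨hZA j hj z hz i, hZr j z hz _ (hZA j hj z hz i)⟩)
    have e1 : (2 * ((1 : ℕ) : ℝ) + 1) * (2 * ((1 : ℕ) : ℝ) + 1) / (θ / 2) = 18 / θ := by
      push_cast
      field_simp
      norm_num
    rw [e1] at h1
    refine (measure_mono ?_).trans h1
    rintro y ⟨z, hz, e2, e3⟩
    refine ⟨z, hz, ?_, ?_⟩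
    · rw [zpow_natCast]
      push_cast
      rw [one_mul]
      exact e2.le
    · push_cast
      rw [one_mul]
      exact e3.le
  set E₀ : ℝ≥0∞ := ENNReal.ofReal (18 / θ) * ∑ j ∈ Finset.range (2 ^ u), volume (F ∩ V j) with hE₀
  have h5 : ∀ i < 16 * u, ∑ j ∈ Finset.range (2 ^ u), volume (Er i j) ≤ E₀ := by
    intro i _
    rw [hE₀, Finset.mul_sum]
    exact Finset.sum_le_sum fun j hj => h4 i j (Finset.mem_range.1 hj)
  -- (3)
  have h3 : ∀ i, ∀ x : Pl, ∑ j ∈ Finset.range (2 ^ u), volume (Er i j ∩ Sq x (4 * (2 : ℝ) ^ (a i))) ≤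
      ENNReal.ofReal (D₀ * (4 : ℝ) ^ (a i)) := by
    intro i x
    have hcnt : ∀ τ : ℝ, ({j : ℕ | j < 2 ^ u ∧ |s j - τ| ≤ (2 : ℝ) ^ (-((2 ^ (b + 1) * u : ℕ) : ℤ))}.ncard : ℝ) ≤ ν := by
      intro τ
      have h6 := hSlo.2 τ (2 ^ (b + 1) * u) (by
        have : 1 ≤ 2 ^ (b + 1) := Nat.one_le_two_pow
        nlinarith)
      have e2 : (((2 ^ (b + 1) * u : ℕ)) : ℝ) = (2 : ℝ) ^ (b + 1) * u := by push_cast; ring
      rw [e2] at h6
      exact h6
    have h7 := hC u s ν (a i) (2 ^ (b + 1) * u) F D θ Z Bf x hSlo.1 hν1 (haLo i) hcnt hBM hCtl hD hDθ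
      (fun j hj z hz => ⟨hZB j hj z hz, hZr j z hz _ (hZA j hj z hz i)⟩)
    refine h7.trans (ENNReal.ofReal_le_ofReal ?_)
    rw [hD₀]
    have : C * ν * D / θ ^ 2 ≤ C₃ * ν * D / θ ^ 2 := by
      gcongr
    exact mul_le_mul_of_nonneg_right this (by positivity)
  -- (5)
  have hmain := hC₂ u b 0 A σ s Et Er D₀ m E₀ {z | m ≤ ({j : ℕ | j < 2 ^ u ∧ z ∈ Z j}.ncard : ℝ)} hu hb hA hSlo
    hD₀p ?_ ?_ h5 hm1 hm2 hm3 ?_
  · refine hmain.trans ?_
    rw [hE₀, ← mul_assoc, ← ENNReal.ofReal_mul (by positivity)]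
    refine mul_le_mul_left (ENNReal.ofReal_le_ofReal ?_) _
    refine mul_le_mul_of_nonneg_right ?_ (by positivity)
    refine add_le_add le_rfl ?_
    have e3 : 16 * (u : ℝ) * (C₂ * ν * (64 * D₀) / m ^ 3) = (1024 * C₂) * (u * ν * D₀ / m ^ 3) := by ring
    have e4 : (u : ℝ) * C₃ * ν * D₀ / m ^ 3 = C₃ * (u * ν * D₀ / m ^ 3) := by ring
    rw [e3, e4]
    refine mul_le_mul_of_nonneg_right hC3a ?_
    positivity
  · intro i _ j _
    refine ⟨st0_open _ _ _ _, (st0_open _ _ _ _).measurableSet, ?_⟩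
    rintro y ⟨z, hz, e1, e2⟩ lam hlam
    rw [zero_add, sub_eq_add_neg, zpow_add₀ (by norm_num), zpow_natCast] at hlam
    have e3 : 10 * ((2 : ℝ) ^ (a i) * (2 : ℝ) ^ (-((2 ^ (b - 1) * (16 * u) : ℕ) : ℤ))) ≤ (2 : ℝ) ^ (a i) / 2 := by
      have e4 : (2 : ℝ) ^ (-((2 ^ (b - 1) * (16 * u) : ℕ) : ℤ)) ≤ 1 / 20 := by
        have e5 : (-((2 ^ (b - 1) * (16 * u) : ℕ) : ℤ)) ≤ -5 := by
          have e6 : 5 ≤ 2 ^ (b - 1) * (16 * u) := by
            have : 1 ≤ 2 ^ (b - 1) := Nat.one_le_two_pow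
            nlinarith
          have e7 : (5 : ℤ) ≤ ((2 ^ (b - 1) * (16 * u) : ℕ) : ℤ) := by exact_mod_cast e6
          omega
        refine (zpow_le_zpow_right₀ (by norm_num) e5).trans ?_
        norm_num
      have e8 : (0 : ℝ) < (2 : ℝ) ^ (a i) := by positivity
      nlinarith
    have e9 : |lam| ≤ (2 : ℝ) ^ (a i) / 2 := hlam.trans e3
    have f0 : (y + lam • E (s j)) 0 = y 0 + lam := by
      have : (E (s j)) 0 = 1 := (p1 1 (s j)).1
      rw [PiLp.add_apply, PiLp.smul_apply, this, smul_eq_mul, mul_one]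
    have f1 : (y + lam • E (s j)) 1 = y 1 + lam * s j := by
      have : (E (s j)) 1 = s j := (p1 1 (s j)).2
      rw [PiLp.add_apply, PiLp.smul_apply, this, smul_eq_mul]
    have f2 : pr (s j) (y + lam • E (s j)) = pr (s j) y := by
      unfold pr
      rw [f0, f1]
      ring
    refine ⟨z, hz, ?_, ?_⟩
    · rw [f0]
      have : y 0 + lam - z 0 = (y 0 - z 0) + lam := by ring
      rw [this]
      calc |(y 0 - z 0) + lam| ≤ |y 0 - z 0| + |lam| := abs_add_le _ _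
        _ < (2 : ℝ) ^ (a i) / 2 + (2 : ℝ) ^ (a i) / 2 := by linarith
        _ = (2 : ℝ) ^ (a i) := by ring
    · rw [f2]
      exact e2
  · intro i _ x
    have := h3 i x
    rw [zero_add, zpow_natCast, zpow_natCast]
    exact this
  · intro x hx
    refine le_trans hx ?_
    have hfin : {j : ℕ | j < 2 ^ u ∧ ∀ i < 16 * u, x ∈ Et i j}.Finite :=
      (Set.finite_lt_nat (2 ^ u)).subset fun j hj => hj.1
    have hsub : {j : ℕ | j < 2 ^ u ∧ x ∈ Z j} ⊆ {j : ℕ | j < 2 ^ u ∧ ∀ i < 16 * u, x ∈ Et i j} :=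
      fun j hj => ⟨hj.1, fun i _ => hZEt i j hj.2⟩
    exact_mod_cast Set.ncard_le_ncard hsub hfin

end Pool.Agent.Helper79.RL
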